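import Mathlib
import Pool.Agent.H89.LOM.Signs

set_option autoImplicit false

namespace Pool.Agent.Results.MP_1e71f9_co.LawrenceSets

/-- The data of a projective transformation `x ↦ (A x + b) / (⟨c, x⟩ + δ)` of `ℝ^d`: the block
matrix `(A b; c δ)` is invertible. -/
structure ProjTrans (d : ℕ) where
  /-- linear part -/
  A : Matrix (Fin d) (Fin d) ℝ
  /-- translation part -/
  b : Fin d → ℝ
  /-- linear part of the denominator -/
  c : Fin d → ℝ
  /-- constant part of the denominator -/
  δ : ℝ
  /-- the block matrix is invertible -/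
  inv : IsUnit (Matrix.fromBlocks A (Matrix.of fun i (_ : Unit) => b i)
    (Matrix.of fun (_ : Unit) j => c j) (Matrix.of fun (_ : Unit) (_ : Unit) => δ))

/-- The denominator `⟨c, x⟩ + δ`. -/
def ProjTrans.den {d : ℕ} (T : ProjTrans d) (x : Fin d → ℝ) : ℝ := (∑ i, T.c i * x i) + T.δ

/-- The map `x ↦ (A x + b) / (⟨c, x⟩ + δ)`. -/
noncomputable def ProjTrans.map {d : ℕ} (T : ProjTrans d) (x : Fin d → ℝ) : Fin d → ℝ :=
  fun i => ((∑ k, T.A i k * x k) + T.b i) / T.den x

/-- The points `x_0, ..., x_{n-1}` of `ℝ^d`, in this order, form a Lawrence configuration: there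
is a `(d+1) × n` matrix `a` of signs such that for all `j_0 < ... < j_d` the sign of the
determinant with rows `(1, x_{j_0}), ..., (1, x_{j_d})` is `a_{0,j_0} ⋯ a_{d,j_d}`. -/
def IsLawrence {d n : ℕ} (x : Fin n → Fin d → ℝ) : Prop :=
  ∃ a : Fin (d + 1) → Fin n → ℝ, (∀ i j, a i j = 1 ∨ a i j = -1) ∧
    ∀ b : Fin (d + 1) → Fin n, StrictMono b →
      0 < (∏ i, a i (b i)) *
        (Matrix.of fun i => (Fin.cons 1 (x (b i)) : Fin (d + 1) → ℝ)).det

open Pool.Agent.H89.LOM in
/-- Every Lawrence configuration of `n` points in `ℝ^d`, where `d + 1 ≤ n ≤ 5 d / 2`, can be sent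
by a permissible projective transformation to points in convex position (every image point is a
vertex of the convex hull of the images, and the images are distinct). -/
theorem result (d n : ℕ) (hn : d + 1 ≤ n) (h : 2 * n ≤ 5 * d) (x : Fin n → Fin d → ℝ)
    (hx : IsLawrence x) :
    ∃ T : ProjTrans d, (∀ j, T.den (x j) ≠ 0) ∧
      ∀ j, T.map (x j) ∉ convexHull ℝ ((fun k => T.map (x k)) '' {k | k ≠ j}) := by
  classical
  obtain ⟨a, ha⟩ := hx
  have hst : Stair (fun j => (Fin.cons 1 (x j) : Fin (d + 1) → ℝ)) a := ha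
  obtain ⟨s, hs1, hs2⟩ := core' (bm a) n d (by omega) h
  obtain ⟨l, hl0, hl⟩ := exists_ne_zero s (hst.exists_functional hn s hs1)
  have hm : ∀ m : Fin n, ∃ l : Fin (d + 1) → ℝ, ∀ j : Fin n,
      0 < sgn (flp s m j) * ∑ i, l i * (Fin.cons 1 (x j) : Fin (d + 1) → ℝ) i :=
    fun m => hst.exists_functional hn (flp s m) (hs2 m m.2)
  choose q hq using hm
  -- evaluate the functionals
  have ev : ∀ (l : Fin (d + 1) → ℝ) (j : Fin n),
      ∑ i, l i * (Fin.cons 1 (x j) : Fin (d + 1) → ℝ) i = (∑ i, l i.succ * x j i) + l 0 := by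
    intro l j
    rw [Fin.sum_univ_succ]
    simp only [Fin.cons_zero, Fin.cons_succ, mul_one]
    ring
  simp only [ev] at hl hq
  let T : ProjTrans d :=
    { A := 1
      b := 0
      c := fun i => l i.succ
      δ := l 0
      inv := by
        rw [Matrix.isUnit_iff_isUnit_det]
        have h0 : (Matrix.of fun (i : Fin d) (_ : Unit) => (0 : Fin d → ℝ) i) = 0 := by
          ext i j; rfl
        rw [h0, Matrix.det_fromBlocks_zero₁₂]
        simpa using hl0 }
  have hden : ∀ j, T.den (x j) = (∑ i, l i.succ * x j i) + l 0 := fun j => rfl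
  have hne : ∀ j, T.den (x j) ≠ 0 := by
    intro j h0
    have := hl j
    rw [← hden, h0, mul_zero] at this
    exact lt_irrefl _ this
  have hmap : ∀ j i, T.map (x j) i = x j i / T.den (x j) := by
    intro j i
    simp only [ProjTrans.map, T]
    simp [Matrix.one_apply]
  refine ⟨T, hne, fun m hmem => ?_⟩
  -- the separating affine functional
  let f : (Fin d → ℝ) →ₗ[ℝ] ℝ :=
    ∑ i, (q m i.succ - q m 0 / l 0 * l i.succ) • LinearMap.proj i
  have hf : ∀ y, f y = ∑ i, (q m i.succ - q m 0 / l 0 * l i.succ) * y i := by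
    intro y
    simp [f, LinearMap.sum_apply]
  have hfx : ∀ j, f (T.map (x j)) + q m 0 / l 0 =
      ((∑ i, q m i.succ * x j i) + q m 0) / T.den (x j) := by
    intro j
    have e1 : f (T.map (x j)) =
        ((∑ i, q m i.succ * x j i) - q m 0 / l 0 * ∑ i, l i.succ * x j i) / T.den (x j) := by
      rw [hf, Finset.mul_sum, ← Finset.sum_sub_distrib, Finset.sum_div]
      refine Finset.sum_congr rfl fun i _ => ?_
      rw [hmap]
      ring
    have e2 : (∑ i, l i.succ * x j i) = T.den (x j) - l 0 := by
      rw [hden]; ring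
    rw [e1, e2]
    have := hne j
    field_simp
    ring
  have hpos : ∀ j, j ≠ m → 0 < f (T.map (x j)) + q m 0 / l 0 := by
    intro j hj
    have h1 := hl j
    have h2 := hq m j
    have h3 : flp s m j = s j := by
      have : (j : ℕ) ≠ (m : ℕ) := fun h => hj (Fin.ext h)
      simp [flp, this]
    rw [h3] at h2
    rw [← hden] at h1
    rw [hfx]
    have h4 := mul_pos h2 h1
    have h5 : 0 < ((∑ i, q m i.succ * x j i) + q m 0) * T.den (x j) := by
      have := sgn_mul_self (s j)
      nlinarith [this, h4]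
    have h6 : ((∑ i, q m i.succ * x j i) + q m 0) / T.den (x j) =
        (((∑ i, q m i.succ * x j i) + q m 0) * T.den (x j)) / (T.den (x j) * T.den (x j)) := by
      have := hne j
      field_simp
    rw [h6]
    exact div_pos h5 (mul_self_pos.mpr (hne j))
  have hneg : f (T.map (x m)) + q m 0 / l 0 < 0 := by
    have h1 := hl m
    have h2 := hq m m
    have h3 : flp s m m = !(s m) := by simp [flp]
    rw [h3, sgn_not] at h2
    rw [← hden] at h1
    rw [hfx]
    have h4 := mul_pos h2 h1
    have h5 : 0 < -((∑ i, q m i.succ * x m i) + q m 0) * T.den (x m) := by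
      have := sgn_mul_self (s m)
      nlinarith [this, h4]
    have h6 : ((∑ i, q m i.succ * x m i) + q m 0) / T.den (x m) =
        -((-((∑ i, q m i.succ * x m i) + q m 0) * T.den (x m)) /
          (T.den (x m) * T.den (x m))) := by
      have := hne m
      field_simp
    rw [h6, neg_lt_zero]
    exact div_pos h5 (mul_self_pos.mpr (hne m))
  -- the half space
  have hconv : Convex ℝ {y : Fin d → ℝ | -(q m 0 / l 0) < f y} :=
    convex_halfSpace_gt f.isLinear _
  have hsub : convexHull ℝ ((fun k => T.map (x k)) '' {k | k ≠ m}) ⊆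
      {y : Fin d → ℝ | -(q m 0 / l 0) < f y} := by
    refine convexHull_min ?_ hconv
    rintro _ ⟨k, hk, rfl⟩
    have := hpos k hk
    show -(q m 0 / l 0) < f (T.map (x k))
    linarith
  have h7 : -(q m 0 / l 0) < f (T.map (x m)) := hsub hmem
  linarith

end Pool.Agent.Results.MP_1e71f9_co.LawrenceSets
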