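import Mathlib
import Pool.Agent.H34.Mcm.Points

set_option autoImplicit false

namespace Pool.Agent.Results.MP_1e71f9_co.SelfAssociatedSets

open Matrix Finset Pool.Agent.H34.Mcm

/-- No `d + 1` of the points lie on a common affine hyperplane `⟨c, y⟩ + δ = 0`, `c ≠ 0`. -/
def GenPos {d n : ℕ} (x : Fin n → Fin d → ℝ) : Prop :=
  ∀ (c : Fin d → ℝ) (δ : ℝ), c ≠ 0 →
    (univ.filter fun i => (∑ k, c k * x i k) + δ = 0).card ≤ d

/-- There is a non-trivial relation `∑ λ_i x̂_i x̂_i^T = 0`, `x̂_i = (1, x_i)`. -/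
def SelfAssoc {d n : ℕ} (x : Fin n → Fin d → ℝ) : Prop :=
  ∃ lam : Fin n → ℝ, lam ≠ 0 ∧
    ∀ a b : Fin (d + 1), ∑ i, lam i * (hat (x i) a * hat (x i) b) = 0

/-- `det(ŷ_0, ..., ŷ_d) * det(ẑ_0, ..., ẑ_d)` for two families of `d + 1` points, given as one
family indexed by the disjoint union. -/
noncomputable def D {d : ℕ} (y : Fin (d + 1) ⊕ Fin (d + 1) → Fin d → ℝ) : ℝ :=
  (Matrix.of fun k => hat (y (Sum.inl k))).det * (Matrix.of fun k => hat (y (Sum.inr k))).det

/-- The points can be divided into two families of `d + 1` points, with a distinguished point `l`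
in the first family, such that the sign of the product `D` of the two determinants is unchanged
when `l` is swapped with a point of the second family, and also when in addition a second pair of
points is swapped between the two families. -/
def Balanced {d : ℕ} (x : Fin (2 * d + 2) → Fin d → ℝ) : Prop :=
  ∃ (e : Fin (d + 1) ⊕ Fin (d + 1) ≃ Fin (2 * d + 2)) (l : Fin (d + 1)),
    (∀ j, 0 < D (x ∘ e) * D (x ∘ e ∘ Equiv.swap (Sum.inl l) (Sum.inr j))) ∧
    ∀ k i j, k ≠ l → i ≠ j → 0 < D (x ∘ e) *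
      D (x ∘ e ∘ Equiv.swap (Sum.inl k) (Sum.inr i) ∘ Equiv.swap (Sum.inl l) (Sum.inr j))

theorem GenPos.vec {d n : ℕ} {x : Fin n → Fin d → ℝ} (h : GenPos x) (ψ : Fin (d + 1) → ℝ)
    (hψ : ψ ≠ 0) : (univ.filter fun i => ∑ a, ψ a * hat (x i) a = 0).card ≤ d := by
  have ev : ∀ j, ∑ i, ψ i * hat (x j) i = (∑ i, ψ i.succ * x j i) + ψ 0 := by
    intro j
    rw [Fin.sum_univ_succ]
    simp only [hat, Fin.cons_zero, Fin.cons_succ, mul_one]
    ring
  simp only [ev]
  by_cases h0 : (fun i : Fin d => ψ i.succ) = 0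
  · have h1 : ψ 0 ≠ 0 := by
      intro h2
      apply hψ
      funext i
      refine Fin.cases h2 (fun i => congrFun h0 i) i
    have : (univ.filter fun i : Fin n => (∑ k : Fin d, ψ k.succ * x i k) + ψ 0 = 0) = ∅ := by
      refine Finset.filter_false_of_mem fun i _ => ?_
      rw [Finset.sum_eq_zero, zero_add]
      · exact h1
      · intro k _
        have := congrFun h0 k
        simp only [Pi.zero_apply] at this
        rw [this, zero_mul]
    rw [this]
    simp
  · exact h _ _ h0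

/-- A non-zero functional vanishing at `≤ d` given points. -/
theorem exists_functional {d n : ℕ} (x : Fin n → Fin d → ℝ) (S : Finset (Fin n))
    (hS : S.card ≤ d) : ∃ ψ : Fin (d + 1) → ℝ, ψ ≠ 0 ∧ ∀ i ∈ S, ∑ a, ψ a * hat (x i) a = 0 := by
  let f : (Fin (d + 1) → ℝ) →ₗ[ℝ] (S → ℝ) :=
    { toFun := fun ψ i => ∑ a, ψ a * hat (x i) a
      map_add' := by
        intro p q
        funext i
        simp only [Pi.add_apply, add_mul, Finset.sum_add_distrib]
      map_smul' := by
        intro c p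
        funext i
        simp only [Pi.smul_apply, smul_eq_mul, RingHom.id_apply, Finset.mul_sum, mul_assoc] }
  have hlt : Module.finrank ℝ (S → ℝ) < Module.finrank ℝ (Fin (d + 1) → ℝ) := by
    rw [Module.finrank_fintype_fun_eq_card, Module.finrank_fintype_fun_eq_card, Fintype.card_fin,
      Fintype.card_coe]
    omega
  obtain ⟨ψ, hψ, hψ0⟩ := (Submodule.ne_bot_iff _).1 (LinearMap.ker_ne_bot_of_finrank_lt hlt)
  refine ⟨ψ, hψ0, fun i hi => ?_⟩
  have h1 : f ψ = 0 := LinearMap.mem_ker.1 hψ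
  exact congrFun h1 ⟨i, hi⟩

theorem selfAssoc_sum {d n : ℕ} {x : Fin n → Fin d → ℝ} {lam : Fin n → ℝ}
    (h : ∀ a b : Fin (d + 1), ∑ i, lam i * (hat (x i) a * hat (x i) b) = 0)
    (φ ψ : Fin (d + 1) → ℝ) :
    ∑ i, lam i * ((∑ a, φ a * hat (x i) a) * (∑ a, ψ a * hat (x i) a)) = 0 := by
  have e : ∀ i, lam i * ((∑ a, φ a * hat (x i) a) * (∑ a, ψ a * hat (x i) a)) =
      ∑ a, ∑ b, φ a * ψ b * (lam i * (hat (x i) a * hat (x i) b)) := by
    intro i
    rw [Finset.sum_mul_sum, Finset.mul_sum]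
    refine Finset.sum_congr rfl fun a _ => ?_
    rw [Finset.mul_sum]
    refine Finset.sum_congr rfl fun b _ => ?_
    ring
  rw [Finset.sum_congr rfl fun i _ => e i, Finset.sum_comm]
  refine Finset.sum_eq_zero fun a _ => ?_
  rw [Finset.sum_comm]
  refine Finset.sum_eq_zero fun b _ => ?_
  rw [← Finset.mul_sum, h, mul_zero]

/-- In general position all coefficients are non-zero. -/
theorem lam_ne_zero {d : ℕ} {x : Fin (2 * d + 2) → Fin d → ℝ} (hx : GenPos x)
    {lam : Fin (2 * d + 2) → ℝ} (h0 : lam ≠ 0)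
    (h : ∀ a b : Fin (d + 1), ∑ i, lam i * (hat (x i) a * hat (x i) b) = 0) (j : Fin (2 * d + 2)) :
    lam j ≠ 0 := by
  classical
  intro hj
  obtain ⟨i₀, hi₀⟩ := Function.ne_iff.1 h0
  simp only [Pi.zero_apply] at hi₀
  have hij : i₀ ≠ j := fun h => hi₀ (h ▸ hj)
  let U : Finset (Fin (2 * d + 2)) := (univ.erase i₀).erase j
  have hU : U.card = 2 * d := by
    rw [Finset.card_erase_of_mem (Finset.mem_erase.2 ⟨hij.symm, mem_univ j⟩),
      Finset.card_erase_of_mem (mem_univ _), Finset.card_univ, Fintype.card_fin]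
    omega
  obtain ⟨A, hAU, hA⟩ := Finset.exists_subset_card_eq (s := U) (n := d) (by omega)
  have hB : (U \ A).card = d := by
    rw [Finset.card_sdiff_of_subset hAU, hU, hA]
    omega
  obtain ⟨φ, hφ0, hφ⟩ := exists_functional x A hA.le
  obtain ⟨ψ, hψ0, hψ⟩ := exists_functional x (U \ A) hB.le
  have key : ∀ (θ : Fin (d + 1) → ℝ) (S : Finset (Fin (2 * d + 2))), θ ≠ 0 → S ⊆ U → S.card = d →
      (∀ i ∈ S, ∑ a, θ a * hat (x i) a = 0) → ∑ a, θ a * hat (x i₀) a ≠ 0 := by
    intro θ S hθ hSU hS hv hz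
    have h1 := hx.vec θ hθ
    have h2 : insert i₀ S ⊆ univ.filter fun i => ∑ a, θ a * hat (x i) a = 0 := by
      intro i hi
      rcases Finset.mem_insert.1 hi with rfl | hi
      · simpa using hz
      · simpa using hv i hi
    have h3 : i₀ ∉ S := by
      intro hm
      have := hSU hm
      simp [U] at this
    have h4 := Finset.card_le_card h2
    rw [Finset.card_insert_of_notMem h3, hS] at h4
    omega
  have e1 := key φ A hφ0 hAU hA hφ
  have e2 := key ψ (U \ A) hψ0 Finset.sdiff_subset hB hψ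
  have hs := selfAssoc_sum h φ ψ
  rw [Finset.sum_eq_single i₀] at hs
  · exact mul_ne_zero hi₀ (mul_ne_zero e1 e2) hs
  · intro i _ hi
    by_cases hij' : i = j
    · rw [hij', hj, zero_mul]
    · have hiU : i ∈ U := by simp [U, hi, hij']
      by_cases hiA : i ∈ A
      · rw [hφ i hiA]; ring
      · rw [hψ i (Finset.mem_sdiff.2 ⟨hiU, hiA⟩)]; ring
  · intro hn
    exact absurd (mem_univ _) hn

theorem card_pos_ge {d : ℕ} {x : Fin (2 * d + 2) → Fin d → ℝ} (hx : GenPos x)
    {lam : Fin (2 * d + 2) → ℝ} (hl : ∀ j, lam j ≠ 0)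
    (h : ∀ a b : Fin (d + 1), ∑ i, lam i * (hat (x i) a * hat (x i) b) = 0) :
    d + 1 ≤ (univ.filter fun i => 0 < lam i).card := by
  classical
  by_contra hc
  push Not at hc
  obtain ⟨φ, hφ0, hφ⟩ := exists_functional x (univ.filter fun i => 0 < lam i) (by omega)
  have hs := selfAssoc_sum h φ φ
  have hle : ∀ i ∈ (univ : Finset (Fin (2 * d + 2))),
      lam i * ((∑ a, φ a * hat (x i) a) * (∑ a, φ a * hat (x i) a)) ≤ 0 := by
    intro i _
    rcases lt_or_gt_of_ne (hl i) with hi | hi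
    · exact mul_nonpos_of_nonpos_of_nonneg hi.le (mul_self_nonneg _)
    · rw [hφ i (by simpa using hi)]
      simp
  have hz := (Finset.sum_eq_zero_iff_of_nonpos hle).1 hs
  have hall : ∀ i, ∑ a, φ a * hat (x i) a = 0 := by
    intro i
    have := hz i (mem_univ i)
    rcases mul_eq_zero.1 this with h' | h'
    · exact absurd h' (hl i)
    · exact mul_self_eq_zero.1 h'
  have h1 := hx.vec φ hφ0
  rw [Finset.filter_true_of_mem fun i _ => hall i, Finset.card_univ, Fintype.card_fin] at h1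
  omega

/-- The matrix with rows `x̂` for the first family. -/
noncomputable def mA {d : ℕ} (y : Fin (d + 1) ⊕ Fin (d + 1) → Fin d → ℝ) :
    Matrix (Fin (d + 1)) (Fin (d + 1)) ℝ := Matrix.of fun k => hat (y (Sum.inl k))

/-- The matrix with rows `x̂` for the second family. -/
noncomputable def mC {d : ℕ} (y : Fin (d + 1) ⊕ Fin (d + 1) → Fin d → ℝ) :
    Matrix (Fin (d + 1)) (Fin (d + 1)) ℝ := Matrix.of fun k => hat (y (Sum.inr k))

theorem D_eq {d : ℕ} (y : Fin (d + 1) ⊕ Fin (d + 1) → Fin d → ℝ) :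
    D y = (mA y).det * (mC y).det := rfl

theorem D_swap {d : ℕ} (y : Fin (d + 1) ⊕ Fin (d + 1) → Fin d → ℝ)
    (hA : IsUnit (mA y).det) (hC : IsUnit (mC y).det) (l j : Fin (d + 1)) :
    D (y ∘ Equiv.swap (Sum.inl l) (Sum.inr j)) =
      (mC y * (mA y)⁻¹) j l * (mA y * (mC y)⁻¹) l j * D y := by
  have e1 : D (y ∘ Equiv.swap (Sum.inl l) (Sum.inr j)) =
      ((mA y).updateRow l (mC y j)).det * ((mC y).updateRow j (mA y l)).det := by
    unfold D
    congr 2
    · ext a b
      by_cases ha : a = l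
      · subst ha
        simp [mC]
      · have : (Sum.inl a : Fin (d + 1) ⊕ Fin (d + 1)) ≠ Sum.inl l := fun h =>
          ha (Sum.inl_injective h)
        simp [Matrix.updateRow_ne, ha, mA, Equiv.swap_apply_of_ne_of_ne this]
    · ext a b
      by_cases ha : a = j
      · subst ha
        simp [mA]
      · have : (Sum.inr a : Fin (d + 1) ⊕ Fin (d + 1)) ≠ Sum.inr j := fun h =>
          ha (Sum.inr_injective h)
        simp [Matrix.updateRow_ne, ha, mC, Equiv.swap_apply_of_ne_of_ne _ this]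
  have hCM : mC y = (mC y * (mA y)⁻¹) * mA y := by
    rw [Matrix.mul_assoc, Matrix.nonsing_inv_mul _ hA, Matrix.mul_one]
  have hAL : mA y = (mA y * (mC y)⁻¹) * mC y := by
    rw [Matrix.mul_assoc, Matrix.nonsing_inv_mul _ hC, Matrix.mul_one]
  rw [e1, det_updateRow_mul _ _ _ hCM, det_updateRow_mul _ _ _ hAL, D_eq]
  ring

theorem D_swap_two {d : ℕ} (y : Fin (d + 1) ⊕ Fin (d + 1) → Fin d → ℝ)
    (hA : IsUnit (mA y).det) (hC : IsUnit (mC y).det) (k l i j : Fin (d + 1))
    (hkl : k ≠ l) (hij : i ≠ j) :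
    D (y ∘ Equiv.swap (Sum.inl k) (Sum.inr i) ∘ Equiv.swap (Sum.inl l) (Sum.inr j)) =
      ((mC y * (mA y)⁻¹) i k * (mC y * (mA y)⁻¹) j l -
        (mC y * (mA y)⁻¹) i l * (mC y * (mA y)⁻¹) j k) *
      ((mA y * (mC y)⁻¹) k i * (mA y * (mC y)⁻¹) l j -
        (mA y * (mC y)⁻¹) k j * (mA y * (mC y)⁻¹) l i) * D y := by
  have e1 : D (y ∘ Equiv.swap (Sum.inl k) (Sum.inr i) ∘ Equiv.swap (Sum.inl l) (Sum.inr j)) =
      (((mA y).updateRow k (mC y i)).updateRow l (mC y j)).det *
      (((mC y).updateRow i (mA y k)).updateRow j (mA y l)).det := by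
    unfold D
    congr 2
    · ext a b
      by_cases ha : a = l
      · subst ha
        have h5 : (Sum.inr j : Fin (d + 1) ⊕ Fin (d + 1)) ≠ Sum.inr i := fun h =>
          hij (Sum.inr_injective h).symm
        simp [mC, Equiv.swap_apply_of_ne_of_ne _ h5]
      · have h6 : (Sum.inl a : Fin (d + 1) ⊕ Fin (d + 1)) ≠ Sum.inl l := fun h =>
          ha (Sum.inl_injective h)
        by_cases hak : a = k
        · subst hak
          simp [mC, Matrix.updateRow_ne, ha, Equiv.swap_apply_of_ne_of_ne h6]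
        · have h7 : (Sum.inl a : Fin (d + 1) ⊕ Fin (d + 1)) ≠ Sum.inl k := fun h =>
            hak (Sum.inl_injective h)
          simp [Matrix.updateRow_ne, ha, hak, mA, Equiv.swap_apply_of_ne_of_ne h6,
            Equiv.swap_apply_of_ne_of_ne h7]
    · ext a b
      by_cases ha : a = j
      · subst ha
        have h5 : (Sum.inl l : Fin (d + 1) ⊕ Fin (d + 1)) ≠ Sum.inl k := fun h =>
          hkl (Sum.inl_injective h).symm
        simp [mA, Equiv.swap_apply_of_ne_of_ne h5]
      · have h6 : (Sum.inr a : Fin (d + 1) ⊕ Fin (d + 1)) ≠ Sum.inr j := fun h =>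
          ha (Sum.inr_injective h)
        by_cases hai : a = i
        · subst hai
          simp [mA, Matrix.updateRow_ne, ha, Equiv.swap_apply_of_ne_of_ne _ h6]
        · have h7 : (Sum.inr a : Fin (d + 1) ⊕ Fin (d + 1)) ≠ Sum.inr i := fun h =>
            hai (Sum.inr_injective h)
          simp [Matrix.updateRow_ne, ha, hai, mC, Equiv.swap_apply_of_ne_of_ne _ h6,
            Equiv.swap_apply_of_ne_of_ne _ h7]
  have hCM : mC y = (mC y * (mA y)⁻¹) * mA y := by
    rw [Matrix.mul_assoc, Matrix.nonsing_inv_mul _ hA, Matrix.mul_one]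
  have hAL : mA y = (mA y * (mC y)⁻¹) * mC y := by
    rw [Matrix.mul_assoc, Matrix.nonsing_inv_mul _ hC, Matrix.mul_one]
  rw [e1, det_updateRow_two_mul _ _ _ hCM _ _ _ _ hkl,
    det_updateRow_two_mul _ _ _ hAL _ _ _ _ hij, D_eq]
  ring

/-- The chart `(z, M z)`, `M = C A⁻¹`, of points in general position. -/
theorem gp_chart {d : ℕ} (x : Fin (2 * d + 2) → Fin d → ℝ) (hx : GenPos x)
    (e : Fin (d + 1) ⊕ Fin (d + 1) ≃ Fin (2 * d + 2))
    (A C : Matrix (Fin (d + 1)) (Fin (d + 1)) ℝ)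
    (hAd : ∀ k a, A k a = hat (x (e (Sum.inl k))) a)
    (hCd : ∀ k a, C k a = hat (x (e (Sum.inr k))) a) :
    IsUnit A.det ∧ IsUnit C.det ∧ (∀ j k, (C * A⁻¹) j k ≠ 0) ∧
      ∀ i j k l, i ≠ j → k ≠ l →
        (C * A⁻¹) i k * (C * A⁻¹) j l - (C * A⁻¹) i l * (C * A⁻¹) j k ≠ 0 := by
  classical
  -- zeros of functionals
  have hA0 : ∀ ψ k, (A *ᵥ ψ) k = ∑ a, ψ a * hat (x (e (Sum.inl k))) a := by
    intro ψ k
    simp only [Matrix.mulVec, dotProduct, hAd]
    exact Finset.sum_congr rfl fun a _ => mul_comm _ _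
  have hC0 : ∀ ψ k, (C *ᵥ ψ) k = ∑ a, ψ a * hat (x (e (Sum.inr k))) a := by
    intro ψ k
    simp only [Matrix.mulVec, dotProduct, hCd]
    exact Finset.sum_congr rfl fun a _ => mul_comm _ _
  have hA : IsUnit A.det := by
    rw [isUnit_iff_ne_zero]
    intro hdet
    obtain ⟨ψ, hψ0, hψ⟩ := Matrix.exists_mulVec_eq_zero_iff.2 hdet
    have h1 := hx.vec ψ hψ0
    have h2 : (univ.image fun k => e (Sum.inl k)) ⊆
        univ.filter fun i => ∑ a, ψ a * hat (x i) a = 0 := by
      intro i hi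
      obtain ⟨k, -, rfl⟩ := Finset.mem_image.1 hi
      have := congrFun hψ k
      rw [hA0] at this
      exact Finset.mem_filter.2 ⟨mem_univ _, this⟩
    have h3 := Finset.card_le_card h2
    rw [Finset.card_image_of_injective _ (fun a b hab => Sum.inl_injective (e.injective hab)),
      Finset.card_univ, Fintype.card_fin] at h3
    omega
  have hC : IsUnit C.det := by
    rw [isUnit_iff_ne_zero]
    intro hdet
    obtain ⟨ψ, hψ0, hψ⟩ := Matrix.exists_mulVec_eq_zero_iff.2 hdet
    have h1 := hx.vec ψ hψ0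
    have h2 : (univ.image fun k => e (Sum.inr k)) ⊆
        univ.filter fun i => ∑ a, ψ a * hat (x i) a = 0 := by
      intro i hi
      obtain ⟨k, -, rfl⟩ := Finset.mem_image.1 hi
      have := congrFun hψ k
      rw [hC0] at this
      exact Finset.mem_filter.2 ⟨mem_univ _, this⟩
    have h3 := Finset.card_le_card h2
    rw [Finset.card_image_of_injective _ (fun a b hab => Sum.inr_injective (e.injective hab)),
      Finset.card_univ, Fintype.card_fin] at h3
    omega
  let M : Matrix (Fin (d + 1)) (Fin (d + 1)) ℝ := C * A⁻¹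
  -- zeros of `(z, M z)`
  have hzero : ∀ z : Fin (d + 1) → ℝ, z ≠ 0 →
      (univ.filter fun i => gvl M z i = 0).card ≤ d := by
    intro z hz
    let ψ := A⁻¹ *ᵥ z
    have hψ : A *ᵥ ψ = z := by
      simp only [ψ]
      rw [Matrix.mulVec_mulVec, Matrix.mul_nonsing_inv _ hA, Matrix.one_mulVec]
    have hψ0 : ψ ≠ 0 := by
      intro h
      rw [h, Matrix.mulVec_zero] at hψ
      exact hz hψ.symm
    refine le_trans ?_ (hx.vec ψ hψ0)
    rw [← Finset.card_image_of_injective _ e.injective]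
    refine Finset.card_le_card ?_
    intro i hi
    obtain ⟨k, hk, rfl⟩ := Finset.mem_image.1 hi
    simp only [Finset.mem_filter, Finset.mem_univ, true_and] at hk ⊢
    rcases k with k | k
    · simp only [gvl, Sum.elim_inl] at hk
      rwa [← hψ, hA0] at hk
    · simp only [gvl, Sum.elim_inr] at hk
      have h2 : ∑ a, M k a * z a = (C *ᵥ ψ) k := by
        simp only [ψ]
        rw [Matrix.mulVec_mulVec]
        rfl
      rwa [h2, hC0] at hk
  have hM0 : ∀ j k, M j k ≠ 0 := by
    intro j k hjk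
    have h1 := hzero (Pi.single k 1) (by
      intro h
      have := congrFun h k
      simp at this)
    have h2 : insert (Sum.inr j) ((univ.erase k).image Sum.inl) ⊆
        univ.filter fun i => gvl M (Pi.single k 1) i = 0 := by
      intro i hi
      rcases Finset.mem_insert.1 hi with rfl | hi
      · refine Finset.mem_filter.2 ⟨mem_univ _, ?_⟩
        show ∑ a, M j a * (Pi.single k 1 : Fin (d + 1) → ℝ) a = 0
        simp [Pi.single_apply, hjk]
      · obtain ⟨k', hk', rfl⟩ := Finset.mem_image.1 hi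
        have := (Finset.mem_erase.1 hk').1
        refine Finset.mem_filter.2 ⟨mem_univ _, ?_⟩
        show (Pi.single k 1 : Fin (d + 1) → ℝ) k' = 0
        simp [this]
    have h3 := Finset.card_le_card h2
    rw [Finset.card_insert_of_notMem (by simp), Finset.card_image_of_injective _ Sum.inl_injective,
      Finset.card_erase_of_mem (mem_univ _), Finset.card_univ, Fintype.card_fin] at h3
    omega
  have hM2 : ∀ i j k l, i ≠ j → k ≠ l → M i k * M j l - M i l * M j k ≠ 0 := by
    intro i j k l hij hkl h0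
    let z : Fin (d + 1) → ℝ := fun a => if a = k then M i l else if a = l then - M i k else 0
    have hz : z ≠ 0 := by
      intro h
      have := congrFun h k
      simp only [z, if_true, Pi.zero_apply] at this
      exact hM0 i l this
    have h1 := hzero z hz
    have hsum : ∀ m, ∑ a, M m a * z a = M m k * M i l - M m l * M i k := by
      intro m
      rw [← Finset.add_sum_erase univ _ (mem_univ k),
        ← Finset.add_sum_erase (univ.erase k) _ (Finset.mem_erase.2 ⟨hkl.symm, mem_univ l⟩),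
        Finset.sum_eq_zero]
      · simp only [z, if_true, hkl.symm, if_false]
        ring
      · intro a ha
        simp only [Finset.mem_erase] at ha
        simp [z, ha.1, ha.2.1]
    have h2 : insert (Sum.inr i) (insert (Sum.inr j) (((univ.erase k).erase l).image Sum.inl)) ⊆
        univ.filter fun i => gvl M z i = 0 := by
      intro m hm
      rcases Finset.mem_insert.1 hm with rfl | hm
      · refine Finset.mem_filter.2 ⟨mem_univ _, ?_⟩
        show ∑ a, M i a * z a = 0
        rw [hsum]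
        ring
      · rcases Finset.mem_insert.1 hm with rfl | hm
        · refine Finset.mem_filter.2 ⟨mem_univ _, ?_⟩
          show ∑ a, M j a * z a = 0
          rw [hsum]
          linarith
        · obtain ⟨k', hk', rfl⟩ := Finset.mem_image.1 hm
          simp only [Finset.mem_erase] at hk'
          refine Finset.mem_filter.2 ⟨mem_univ _, ?_⟩
          show z k' = 0
          simp [z, hk'.1, hk'.2.1]
    have h3 := Finset.card_le_card h2
    rw [Finset.card_insert_of_notMem (by simp [hij]), Finset.card_insert_of_notMem (by simp),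
      Finset.card_image_of_injective _ Sum.inl_injective,
      Finset.card_erase_of_mem (Finset.mem_erase.2 ⟨hkl.symm, mem_univ l⟩),
      Finset.card_erase_of_mem (mem_univ _), Finset.card_univ, Fintype.card_fin] at h3
    omega
  exact ⟨hA, hC, hM0, hM2⟩

theorem inv_facts {d : ℕ} {A C : Matrix (Fin (d + 1)) (Fin (d + 1)) ℝ} (hA : IsUnit A.det)
    (hC : IsUnit C.det) : (C * A⁻¹) * (A * C⁻¹) = 1 ∧ (A * C⁻¹) * (C * A⁻¹) = 1 := by
  constructor
  · rw [Matrix.mul_assoc, ← Matrix.mul_assoc A⁻¹, Matrix.nonsing_inv_mul _ hA, Matrix.one_mul,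
      Matrix.mul_nonsing_inv _ hC]
  · rw [Matrix.mul_assoc, ← Matrix.mul_assoc C⁻¹, Matrix.nonsing_inv_mul _ hC, Matrix.one_mul,
      Matrix.mul_nonsing_inv _ hA]

/-- Self-associated sets in general position are balanced. -/
theorem selfAssoc_balanced {d : ℕ} (x : Fin (2 * d + 2) → Fin d → ℝ) (hx : GenPos x)
    (h : SelfAssoc x) : Balanced x := by
  classical
  obtain ⟨lam, h0, hlam⟩ := h
  have hl := lam_ne_zero hx h0 hlam
  have hc1 := card_pos_ge hx hl hlam
  have hc2 := card_pos_ge (lam := fun i => - lam i) hx (fun i => neg_ne_zero.2 (hl i)) (by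
    intro a b
    simp only [neg_mul, Finset.sum_neg_distrib, hlam, neg_zero])
  have hsplit := Finset.card_filter_add_card_filter_not (s := (univ : Finset (Fin (2 * d + 2))))
    (fun i => 0 < lam i)
  have hneg : (univ.filter fun i => 0 < - lam i) = univ.filter fun i => ¬ 0 < lam i := by
    refine Finset.filter_congr fun i _ => ?_
    have := hl i
    constructor
    · intro h h'; linarith
    · intro h
      push Not at h
      have := lt_of_le_of_ne h this
      linarith
  rw [hneg] at hc2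
  rw [Finset.card_univ, Fintype.card_fin] at hsplit
  have hp : (univ.filter fun i => 0 < lam i).card = d + 1 := by omega
  have hn : (univ.filter fun i => ¬ 0 < lam i).card = d + 1 := by omega
  have hp' : Fintype.card {i // 0 < lam i} = d + 1 := by
    rw [Fintype.card_subtype]; exact hp
  have hn' : Fintype.card {i // ¬ 0 < lam i} = d + 1 := by
    rw [Fintype.card_subtype]; exact hn
  let e1 := (Fintype.equivFinOfCardEq hp').symm
  let e2 := (Fintype.equivFinOfCardEq hn').symm
  let e : Fin (d + 1) ⊕ Fin (d + 1) ≃ Fin (2 * d + 2) :=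
    (Equiv.sumCongr e1 e2).trans (Equiv.sumCompl fun i => 0 < lam i)
  have hel : ∀ k, 0 < lam (e (Sum.inl k)) := fun k => (e1 k).2
  have her : ∀ k, lam (e (Sum.inr k)) < 0 := fun k =>
    lt_of_le_of_ne (not_lt.1 (e2 k).2) (hl _)
  obtain ⟨hA, hC, hM0, hM2⟩ := gp_chart x hx e (mA (x ∘ e)) (mC (x ∘ e)) (fun _ _ => rfl)
    (fun _ _ => rfl)
  set A := mA (x ∘ e) with hAdef
  set C := mC (x ∘ e) with hCdef
  -- `A^T Λ A = C^T Λ' C`
  have hAC : Aᵀ * (Matrix.diagonal fun k => lam (e (Sum.inl k))) * A =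
      Cᵀ * (Matrix.diagonal fun k => - lam (e (Sum.inr k))) * C := by
    have hd1 : ∀ (B : Matrix (Fin (d + 1)) (Fin (d + 1)) ℝ) (v : Fin (d + 1) → ℝ)
        (a b : Fin (d + 1)), (Bᵀ * Matrix.diagonal v * B) a b = ∑ k, B k a * v k * B k b := by
      intro B v a b
      rw [Matrix.mul_apply]
      refine Finset.sum_congr rfl fun k _ => ?_
      rw [Matrix.mul_diagonal, Matrix.transpose_apply]
    ext a b
    rw [← sub_eq_zero]
    have e1 := hlam a b
    rw [← Equiv.sum_comp e, Fintype.sum_sum_type] at e1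
    rw [← e1, hd1, hd1]
    simp only [hAdef, hCdef, mA, mC, Matrix.of_apply, Function.comp_apply]
    rw [sub_eq_add_neg, ← Finset.sum_neg_distrib]
    congr 1
    · refine Finset.sum_congr rfl fun k _ => ?_
      ring
    · refine Finset.sum_congr rfl fun k _ => ?_
      ring
  obtain ⟨hML, hLM⟩ := inv_facts hA hC
  have hCM : C = (C * A⁻¹) * A := by
    rw [Matrix.mul_assoc, Matrix.nonsing_inv_mul _ hA, Matrix.mul_one]
  set M := C * A⁻¹ with hMdef
  set L := A * C⁻¹ with hLdef
  -- `Λ = M^T Λ' M`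
  have h3 : (Matrix.diagonal fun k => lam (e (Sum.inl k))) =
      Mᵀ * (Matrix.diagonal fun k => - lam (e (Sum.inr k))) * M := by
    have hAi : A * A⁻¹ = 1 := Matrix.mul_nonsing_inv _ hA
    have hAi' : (A⁻¹)ᵀ * Aᵀ = 1 := by
      rw [← Matrix.transpose_mul, hAi, Matrix.transpose_one]
    calc (Matrix.diagonal fun k => lam (e (Sum.inl k)))
        = ((A⁻¹)ᵀ * Aᵀ) * (Matrix.diagonal fun k => lam (e (Sum.inl k))) * (A * A⁻¹) := by
          rw [hAi, hAi', Matrix.one_mul, Matrix.mul_one]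
      _ = (A⁻¹)ᵀ * (Aᵀ * (Matrix.diagonal fun k => lam (e (Sum.inl k))) * A) * A⁻¹ := by
          simp only [Matrix.mul_assoc]
      _ = Mᵀ * (Matrix.diagonal fun k => - lam (e (Sum.inr k))) * M := by
          rw [hAC, hMdef]
          simp only [Matrix.transpose_mul, Matrix.mul_assoc]
  -- `Λ L = M^T Λ'`
  have h4 : (Matrix.diagonal fun k => lam (e (Sum.inl k))) * L =
      Mᵀ * (Matrix.diagonal fun k => - lam (e (Sum.inr k))) := by
    rw [h3, Matrix.mul_assoc, hML, Matrix.mul_one]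
  have h5 : ∀ k j, L k j = M j k * (- lam (e (Sum.inr j))) / lam (e (Sum.inl k)) := by
    intro k j
    have := congrFun (congrFun h4 k) j
    rw [Matrix.diagonal_mul, Matrix.mul_diagonal, Matrix.transpose_apply] at this
    rw [← this]
    have := hl (e (Sum.inl k))
    field_simp
  have hDx : D (x ∘ e) ≠ 0 := by
    rw [D_eq]
    exact mul_ne_zero hA.ne_zero hC.ne_zero
  have hsq : 0 < D (x ∘ e) * D (x ∘ e) := mul_self_pos.2 hDx
  refine ⟨e, 0, ?_, ?_⟩
  · intro j
    have e1 := D_swap (x ∘ e) hA hC 0 j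
    rw [← Function.comp_assoc, e1]
    change 0 < D (x ∘ e) * (M j 0 * L 0 j * D (x ∘ e))
    have e2 : D (x ∘ e) * (M j 0 * L 0 j * D (x ∘ e)) =
        (D (x ∘ e) * D (x ∘ e)) * ((M j 0 * M j 0) *
          ((- lam (e (Sum.inr j))) / lam (e (Sum.inl 0)))) := by
      rw [h5]; ring
    rw [e2]
    exact mul_pos hsq (mul_pos (mul_self_pos.2 (hM0 j 0))
      (div_pos (neg_pos.2 (her j)) (hel 0)))
  · intro k i j hk hij
    have e1 := D_swap_two (x ∘ e) hA hC k 0 i j hk hij
    rw [← Function.comp_assoc, e1]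
    change 0 < D (x ∘ e) * ((M i k * M j 0 - M i 0 * M j k) *
      (L k i * L 0 j - L k j * L 0 i) * D (x ∘ e))
    have e2 : D (x ∘ e) * ((M i k * M j 0 - M i 0 * M j k) *
        (L k i * L 0 j - L k j * L 0 i) * D (x ∘ e)) =
        (D (x ∘ e) * D (x ∘ e)) * (((M i k * M j 0 - M i 0 * M j k) *
          (M i k * M j 0 - M i 0 * M j k)) *
          (((- lam (e (Sum.inr i))) * (- lam (e (Sum.inr j)))) /
            (lam (e (Sum.inl k)) * lam (e (Sum.inl 0))))) := by
      have := hl (e (Sum.inl k))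
      have := hl (e (Sum.inl 0))
      simp only [h5]
      field_simp
    rw [e2]
    exact mul_pos hsq (mul_pos (mul_self_pos.2 (hM2 i j k 0 hij hk))
      (div_pos (mul_pos (neg_pos.2 (her i)) (neg_pos.2 (her j))) (mul_pos (hel k) (hel 0))))

theorem balanced_case {d : ℕ} (hd : 2 ≤ d) (x : Fin (2 * d + 2) → Fin d → ℝ) (hx : GenPos x)
    (h : Balanced x) : CmplPt fun i => hat (x i) := by
  classical
  obtain ⟨e, l, h1, h2⟩ := h
  obtain ⟨hA, hC, hM0, -⟩ := gp_chart x hx e (mA (x ∘ e)) (mC (x ∘ e)) (fun _ _ => rfl)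
    (fun _ _ => rfl)
  obtain ⟨hML, hLM⟩ := inv_facts hA hC
  have hDx : D (x ∘ e) ≠ 0 := by
    rw [D_eq]
    exact mul_ne_zero hA.ne_zero hC.ne_zero
  have hsq : 0 < D (x ∘ e) * D (x ∘ e) := mul_self_pos.2 hDx
  have hcm : Cmpl (mC (x ∘ e) * (mA (x ∘ e))⁻¹) := by
    refine complete (N := (mA (x ∘ e) * (mC (x ∘ e))⁻¹)ᵀ) (by omega) l ?_ ?_ hM0 ?_ ?_
    · intro i j
      have := congrFun (congrFun hML i) j
      simpa [Matrix.mul_apply, Matrix.one_apply] using this
    · intro k l
      have := congrFun (congrFun hLM l) k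
      rw [Matrix.mul_apply, Matrix.one_apply] at this
      simp only [Matrix.transpose_apply]
      rw [← Finset.sum_congr rfl fun j _ => mul_comm ((mA (x ∘ e) * (mC (x ∘ e))⁻¹) l j)
        ((mC (x ∘ e) * (mA (x ∘ e))⁻¹) j k), this]
      simp [eq_comm]
    · intro j
      have e2 := h1 j
      rw [← Function.comp_assoc, D_swap (x ∘ e) hA hC l j] at e2
      have e3 : D (x ∘ e) * ((mC (x ∘ e) * (mA (x ∘ e))⁻¹) j l *
          (mA (x ∘ e) * (mC (x ∘ e))⁻¹) l j * D (x ∘ e)) =
          (D (x ∘ e) * D (x ∘ e)) * ((mC (x ∘ e) * (mA (x ∘ e))⁻¹) j l *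
            ((mA (x ∘ e) * (mC (x ∘ e))⁻¹)ᵀ) j l) := by
        rw [Matrix.transpose_apply]; ring
      rw [e3] at e2
      exact (mul_pos_iff_of_pos_left hsq).1 e2
    · intro i j k hij hk
      have e2 := h2 k i j hk hij
      rw [← Function.comp_assoc, D_swap_two (x ∘ e) hA hC k l i j hk hij] at e2
      have e3 : D (x ∘ e) * (((mC (x ∘ e) * (mA (x ∘ e))⁻¹) i k *
          (mC (x ∘ e) * (mA (x ∘ e))⁻¹) j l -
          (mC (x ∘ e) * (mA (x ∘ e))⁻¹) i l * (mC (x ∘ e) * (mA (x ∘ e))⁻¹) j k) *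
          ((mA (x ∘ e) * (mC (x ∘ e))⁻¹) k i * (mA (x ∘ e) * (mC (x ∘ e))⁻¹) l j -
          (mA (x ∘ e) * (mC (x ∘ e))⁻¹) k j * (mA (x ∘ e) * (mC (x ∘ e))⁻¹) l i) * D (x ∘ e)) =
          (D (x ∘ e) * D (x ∘ e)) * (((mC (x ∘ e) * (mA (x ∘ e))⁻¹) i k *
          (mC (x ∘ e) * (mA (x ∘ e))⁻¹) j l -
          (mC (x ∘ e) * (mA (x ∘ e))⁻¹) i l * (mC (x ∘ e) * (mA (x ∘ e))⁻¹) j k) *
          (((mA (x ∘ e) * (mC (x ∘ e))⁻¹)ᵀ) i k * ((mA (x ∘ e) * (mC (x ∘ e))⁻¹)ᵀ) j l -
          ((mA (x ∘ e) * (mC (x ∘ e))⁻¹)ᵀ) i l * ((mA (x ∘ e) * (mC (x ∘ e))⁻¹)ᵀ) j k)) := by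
        simp only [Matrix.transpose_apply]; ring
      rw [e3] at e2
      exact (mul_pos_iff_of_pos_left hsq).1 e2
  exact cmplPt_of_cmpl _ e (fun _ => 1) (fun _ => one_pos) (mA (x ∘ e)) (mC (x ∘ e)) hA
    (fun _ _ => (one_mul _).symm) (fun _ _ => (one_mul _).symm) hcm

/-- Every balanced set of `2 d + 2` points in general position in `ℝ^d`, `d ≥ 2`, can be sent by a
permissible projective transformation to points in convex position; every self-associated set of
`2 d + 2` points in general position is balanced. -/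
theorem result (d : ℕ) (hd : 2 ≤ d) (x : Fin (2 * d + 2) → Fin d → ℝ) (hx : GenPos x) :
    (SelfAssoc x → Balanced x) ∧ (Balanced x → CanConvex x) :=
  ⟨selfAssoc_balanced x hx, fun h => canConvex_of_cmpl x (balanced_case hd x hx h)⟩

end Pool.Agent.Results.MP_1e71f9_co.SelfAssociatedSets
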