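import Mathlib
import Pool.Agent.H67.Nu.Defs
import Pool.Agent.H77.Nu.BlkT.Main2

/-!
`ν(d) ≤ ⌊(12 d + 1) / 5⌋` for all `d ≥ 2`.
-/

set_option autoImplicit false

namespace Pool.Agent.Results.MP_1e71f9_co.TwelveFifths

open Pool.Agent.H67.Nu

/-- For every `d ≥ 2` and every `n ≥ ⌊(12 d + 6) / 5⌋` there are `n` points in general position in
`ℝ^d` which no permissible projective transformation sends to the vertices of a convex polytope. In
other words `ν(d) ≤ ⌊(12 d + 1) / 5⌋`. -/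
theorem result (d n : ℕ) (hd : 2 ≤ d) (hn : (12 * d + 6) / 5 ≤ n) :
    ∃ x : Fin n → Fin d → ℝ, GenPos x ∧ ¬ Mappable x :=
  Pool.Agent.H77.Nu.BlkT.main2 d n hd hn

end Pool.Agent.Results.MP_1e71f9_co.TwelveFifths
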