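import Mathlib
import Pool.Agent.H97.Mcm2.Main

/-!
Every set of `n ≥ 2d + 1` points in general position in `ℝ^d`, `d ≥ 2`, can be sent by a permissible
projective transformation to a set at least `2d + 1` of whose points are vertices of the convex
hull.
-/

set_option autoImplicit false

namespace Pool.Agent.Results.MP_1e71f9_co.TwoDPlusOneVertices

open Matrix Finset Pool.Agent.H97 Pool.Agent.H97.Mcm

/-- The data of a projective transformation `x ↦ (A x + b) / (⟨c, x⟩ + δ)` of `ℝ^d`: the block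
matrix `(A b; c δ)` is invertible. -/
structure ProjTrans (d : ℕ) where
  /-- linear part -/
  A : Matrix (Fin d) (Fin d) ℝ
  /-- translation part -/
  b : Fin d → ℝ
  /-- linear part of the denominator -/
  c : Fin d → ℝ
  /-- constant part of the denominator -/
  δ : ℝ
  /-- the block matrix is invertible -/
  inv : IsUnit (Matrix.fromBlocks A (Matrix.of fun i (_ : Unit) => b i)
    (Matrix.of fun (_ : Unit) j => c j) (Matrix.of fun (_ : Unit) (_ : Unit) => δ))

/-- The denominator `⟨c, x⟩ + δ`. -/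
def ProjTrans.den {d : ℕ} (T : ProjTrans d) (x : Fin d → ℝ) : ℝ := (∑ i, T.c i * x i) + T.δ

/-- The map `x ↦ (A x + b) / (⟨c, x⟩ + δ)`. -/
noncomputable def ProjTrans.map {d : ℕ} (T : ProjTrans d) (x : Fin d → ℝ) : Fin d → ℝ :=
  fun i => ((∑ k, T.A i k * x k) + T.b i) / T.den x

/-- No `d + 1` of the points lie on a common affine hyperplane `⟨c, y⟩ + δ = 0`, `c ≠ 0`. -/
def GenPos {d n : ℕ} (x : Fin n → Fin d → ℝ) : Prop :=
  ∀ (c : Fin d → ℝ) (δ : ℝ), c ≠ 0 →
    (univ.filter fun i => (∑ k, c k * x i k) + δ = 0).card ≤ d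

/-- The evaluation of the affine functionals `(c, δ)` at the points, `δ` is the component `0`. -/
def ev {d n : ℕ} (x : Fin n → Fin d → ℝ) : (Fin (d + 1) → ℝ) →ₗ[ℝ] (Fin n → ℝ) where
  toFun ψ i := (∑ k, ψ k.succ * x i k) + ψ 0
  map_add' ψ φ := by
    funext i
    simp only [Pi.add_apply, add_mul, Finset.sum_add_distrib]
    ring
  map_smul' a ψ := by
    funext i
    simp only [Pi.smul_apply, smul_eq_mul, RingHom.id_apply, mul_add, Finset.mul_sum, mul_assoc]

theorem ev_apply {d n : ℕ} (x : Fin n → Fin d → ℝ) (ψ : Fin (d + 1) → ℝ) (i : Fin n) :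
    ev x ψ i = (∑ k, ψ k.succ * x i k) + ψ 0 := rfl

theorem GenPos.card_le {d n : ℕ} {x : Fin n → Fin d → ℝ} (h : GenPos x) (ψ : Fin (d + 1) → ℝ)
    (hψ : ψ ≠ 0) : (univ.filter fun i => ev x ψ i = 0).card ≤ d := by
  simp only [ev_apply]
  by_cases h0 : (fun i : Fin d => ψ i.succ) = 0
  · have h1 : ψ 0 ≠ 0 := by
      intro h2
      apply hψ
      funext i
      refine Fin.cases h2 (fun i => congrFun h0 i) i
    have : (univ.filter fun i : Fin n => (∑ k : Fin d, ψ k.succ * x i k) + ψ 0 = 0) = ∅ := by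
      refine Finset.filter_false_of_mem fun i _ => ?_
      rw [Finset.sum_eq_zero, zero_add]
      · exact h1
      · intro k _
        have := congrFun h0 k
        simp only [Pi.zero_apply] at this
        rw [this, zero_mul]
    rw [this]
    simp
  · exact h _ _ h0

theorem GenPos.inj {d n : ℕ} {x : Fin n → Fin d → ℝ} (h : GenPos x) {K : Finset (Fin n)}
    (hK : K.card = d + 1) {ψ : Fin (d + 1) → ℝ} (h0 : ∀ i ∈ K, ev x ψ i = 0) : ψ = 0 := by
  by_contra hψ
  have h1 := h.card_le ψ hψ
  have h2 : K ⊆ univ.filter fun i => ev x ψ i = 0 := by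
    intro i hi
    simpa using h0 i hi
  have := Finset.card_le_card h2
  omega

theorem GenPos.unif {d n : ℕ} {x : Fin n → Fin d → ℝ} (h : GenPos x) :
    Unif (d + 1) (LinearMap.range (ev x)) := by
  constructor
  · intro K hK t
    let R : (Fin (d + 1) → ℝ) →ₗ[ℝ] (K → ℝ) := (LinearMap.funLeft ℝ ℝ (fun i : K => (i : Fin n))).comp (ev x)
    have hinj : Function.Injective R := by
      rw [← LinearMap.ker_eq_bot, LinearMap.ker_eq_bot']
      intro ψ hψ
      refine h.inj hK fun i hi => ?_
      exact congrFun hψ ⟨i, hi⟩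
    have hsurj : Function.Surjective R := by
      refine (LinearMap.injective_iff_surjective_of_finrank_eq_finrank ?_).1 hinj
      rw [Module.finrank_fintype_fun_eq_card, Module.finrank_fintype_fun_eq_card, Fintype.card_fin,
        Fintype.card_coe, hK]
    obtain ⟨ψ, hψ⟩ := hsurj fun i => t i
    refine ⟨ev x ψ, ⟨ψ, rfl⟩, fun i hi => ?_⟩
    exact congrFun hψ ⟨i, hi⟩
  · rintro K hK _ ⟨ψ, rfl⟩ h0
    rw [h.inj hK h0, map_zero]

/-- From a sign vector realised together with its flips at all `m ∈ B` to a projective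
transformation. -/
theorem transfer {d n : ℕ} (x : Fin n → Fin d → ℝ) (B : Finset (Fin n)) (s : Fin n → ℝ)
    (h0 : Rls (LinearMap.range (ev x)) s)
    (hm : ∀ m ∈ B, Rls (LinearMap.range (ev x)) (flp s m)) :
    ∃ T : ProjTrans d, (∀ j, T.den (x j) ≠ 0) ∧
      ∀ j ∈ B, T.map (x j) ∉ convexHull ℝ ((fun k => T.map (x k)) '' {k | k ≠ j}) := by
  classical
  obtain ⟨_, ⟨l₀, rfl⟩, hl₀⟩ := h0
  -- perturb so that the constant term is non-zero
  obtain ⟨l, hl0, hl⟩ : ∃ l : Fin (d + 1) → ℝ, l 0 ≠ 0 ∧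
      ∀ i, 0 < s i * ((∑ a, l a.succ * x i a) + l 0) := by
    have h1 : ∀ i, ∀ᶠ ε in nhdsWithin (0 : ℝ) ({0}ᶜ : Set ℝ),
        0 < s i * ((∑ a, l₀ a.succ * x i a) + (l₀ 0 + ε)) := by
      intro i
      have hc : ContinuousAt (fun ε : ℝ => s i * ((∑ a, l₀ a.succ * x i a) + (l₀ 0 + ε))) 0 := by
        fun_prop
      have : ∀ᶠ ε in nhds (0 : ℝ), 0 < s i * ((∑ a, l₀ a.succ * x i a) + (l₀ 0 + ε)) := by
        apply hc.eventually_const_lt
        simpa [ev_apply] using hl₀ i
      exact this.filter_mono nhdsWithin_le_nhds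
    by_cases h0 : l₀ 0 = 0
    · obtain ⟨ε, hε, hε0⟩ := ((Filter.eventually_all.2 h1).and self_mem_nhdsWithin).exists
      refine ⟨Fin.cons (l₀ 0 + ε) (fun a => l₀ a.succ), ?_, ?_⟩
      · simpa [h0] using hε0
      · intro i
        simpa using hε i
    · exact ⟨l₀, h0, fun i => by simpa [ev_apply] using hl₀ i⟩
  let T : ProjTrans d :=
    { A := 1
      b := 0
      c := fun i => l i.succ
      δ := l 0
      inv := by
        rw [Matrix.isUnit_iff_isUnit_det]
        have h0 : (Matrix.of fun (i : Fin d) (_ : Unit) => (0 : Fin d → ℝ) i) = 0 := by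
          ext i j; rfl
        rw [h0, Matrix.det_fromBlocks_zero₁₂]
        simpa using hl0 }
  have hden : ∀ j, T.den (x j) = (∑ i, l i.succ * x j i) + l 0 := fun j => rfl
  have hne : ∀ j, T.den (x j) ≠ 0 := by
    intro j h0
    have := hl j
    rw [← hden, h0, mul_zero] at this
    exact lt_irrefl _ this
  have hmap : ∀ j i, T.map (x j) i = x j i / T.den (x j) := by
    intro j i
    simp only [ProjTrans.map, T]
    simp [Matrix.one_apply]
  refine ⟨T, hne, fun m hmb hmem => ?_⟩
  obtain ⟨_, ⟨q, rfl⟩, hq⟩ := hm m hmb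
  simp only [ev_apply] at hq
  -- the separating affine functional
  let f : (Fin d → ℝ) →ₗ[ℝ] ℝ :=
    ∑ i, (q i.succ - q 0 / l 0 * l i.succ) • LinearMap.proj i
  have hf : ∀ y, f y = ∑ i, (q i.succ - q 0 / l 0 * l i.succ) * y i := by
    intro y
    simp [f, LinearMap.sum_apply]
  have hfx : ∀ j, f (T.map (x j)) + q 0 / l 0 =
      ((∑ i, q i.succ * x j i) + q 0) / T.den (x j) := by
    intro j
    have e1 : f (T.map (x j)) =
        ((∑ i, q i.succ * x j i) - q 0 / l 0 * ∑ i, l i.succ * x j i) / T.den (x j) := by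
      rw [hf, Finset.mul_sum, ← Finset.sum_sub_distrib, Finset.sum_div]
      refine Finset.sum_congr rfl fun i _ => ?_
      rw [hmap]
      ring
    have e2 : (∑ i, l i.succ * x j i) = T.den (x j) - l 0 := by
      rw [hden]; ring
    rw [e1, e2]
    have := hne j
    field_simp
    ring
  have hsq : ∀ j, 0 < s j * s j := by
    intro j
    refine mul_self_pos.2 ?_
    intro h0
    have := hl j
    rw [h0, zero_mul] at this
    exact lt_irrefl _ this
  have hpos : ∀ j, j ≠ m → 0 < f (T.map (x j)) + q 0 / l 0 := by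
    intro j hj
    have h1 := hl j
    have h2 := hq j
    have h3 : flp s m j = s j := flp_ne s hj
    rw [h3] at h2
    rw [← hden] at h1
    rw [hfx]
    have h4 := mul_pos h2 h1
    have h5 : 0 < ((∑ i, q i.succ * x j i) + q 0) * T.den (x j) := by
      have e : s j * ((∑ i, q i.succ * x j i) + q 0) * (s j * T.den (x j)) =
        (s j * s j) * (((∑ i, q i.succ * x j i) + q 0) * T.den (x j)) := by ring
      rw [e] at h4
      exact (mul_pos_iff_of_pos_left (hsq j)).1 h4
    have h6 : ((∑ i, q i.succ * x j i) + q 0) / T.den (x j) =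
        (((∑ i, q i.succ * x j i) + q 0) * T.den (x j)) / (T.den (x j) * T.den (x j)) := by
      have := hne j
      field_simp
    rw [h6]
    exact div_pos h5 (mul_self_pos.mpr (hne j))
  have hneg : f (T.map (x m)) + q 0 / l 0 < 0 := by
    have h1 := hl m
    have h2 := hq m
    have h3 : flp s m m = -(s m) := flp_self s m
    rw [h3] at h2
    rw [← hden] at h1
    rw [hfx]
    have h4 := mul_pos h2 h1
    have h5 : 0 < -((∑ i, q i.succ * x m i) + q 0) * T.den (x m) := by
      have e : -s m * ((∑ i, q i.succ * x m i) + q 0) * (s m * T.den (x m)) =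
        (s m * s m) * (-((∑ i, q i.succ * x m i) + q 0) * T.den (x m)) := by ring
      rw [e] at h4
      exact (mul_pos_iff_of_pos_left (hsq m)).1 h4
    have h6 : ((∑ i, q i.succ * x m i) + q 0) / T.den (x m) =
        -((-((∑ i, q i.succ * x m i) + q 0) * T.den (x m)) /
          (T.den (x m) * T.den (x m))) := by
      have := hne m
      field_simp
    rw [h6, neg_lt_zero]
    exact div_pos h5 (mul_self_pos.mpr (hne m))
  -- the half space
  have hconv : Convex ℝ {y : Fin d → ℝ | -(q 0 / l 0) < f y} :=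
    convex_halfSpace_gt f.isLinear _
  have hsub : convexHull ℝ ((fun k => T.map (x k)) '' {k | k ≠ m}) ⊆
      {y : Fin d → ℝ | -(q 0 / l 0) < f y} := by
    refine convexHull_min ?_ hconv
    rintro _ ⟨k, hk, rfl⟩
    have := hpos k hk
    show -(q 0 / l 0) < f (T.map (x k))
    linarith
  have h7 : -(q 0 / l 0) < f (T.map (x m)) := hsub hmem
  linarith

/-- Let `d ≥ 2` and let `x` be `n ≥ 2d + 1` points in general position in `ℝ^d`. There is a
projective transformation `T`, permissible for the points, such that for at least `2d + 1` indices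
`j` the image `T (x_j)` is not in the convex hull of the images of the other points: the convex
hull of the image has at least `2d + 1` vertices. -/
theorem result {d n : ℕ} (hd : 2 ≤ d) (hn : 2 * d + 1 ≤ n) (x : Fin n → Fin d → ℝ)
    (hx : GenPos x) :
    ∃ (T : ProjTrans d) (B : Finset (Fin n)), (∀ j, T.den (x j) ≠ 0) ∧ 2 * d + 1 ≤ B.card ∧
      ∀ j ∈ B, T.map (x j) ∉ convexHull ℝ ((fun k => T.map (x k)) '' {k | k ≠ j}) := by
  obtain ⟨s, B, h0, hB, hm⟩ := Mcm2.main (r := d + 1) (by omega)
    (by rw [Fintype.card_fin]; omega) hx.unif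
  obtain ⟨T, hT, hT'⟩ := transfer x B s h0 hm
  exact ⟨T, B, hT, by omega, hT'⟩

end Pool.Agent.Results.MP_1e71f9_co.TwoDPlusOneVertices
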